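import Mathlib

/-!
# MP_a29272_gt, the two dimensional shell lemma

`u = |x|²/2`, `q = x·p` along a geodesic segment `[0, T]`; `du` is the derivative of `u`, `dq` that
of `q`; `|q - du| ≤ η` everywhere and `dq ≥ 1/2` where `|q| ≤ c`.
-/

namespace Pool.Agent.MPa29272.S2D

open Set MeasureTheory

variable {T η c : ℝ} {u du q dq : ℝ → ℝ}

/-- forward barrier -/
theorem barrier_fwd {t₁ : ℝ} (h1 : t₁ ∈ Icc 0 T)
    (hq : ∀ t ∈ Icc 0 T, HasDerivWithinAt q (dq t) (Icc 0 T) t)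
    (hc : 0 < c) (hdq : ∀ t ∈ Icc 0 T, |q t| ≤ c → 1 / 2 ≤ dq t) (h0 : 0 ≤ q t₁) :
    ∀ t ∈ Icc t₁ T, min c ((t - t₁) / 4) ≤ q t := by
  -- one sided derivative of `-q`
  have hder : ∀ a b, t₁ ≤ a → b ≤ T → ∀ t ∈ Ico a b, HasDerivWithinAt (fun t => -q t) (-dq t) (Ici t) t := by
    intro a b ha hb t ht
    have htT : t ∈ Icc 0 T := ⟨h1.1.trans (ha.trans ht.1), ht.2.le.trans hb⟩
    have h := (hq t htT).neg
    have hmem : Icc 0 T ∈ nhdsWithin t (Ici t) := by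
      have : Icc t T ∈ nhdsWithin t (Ici t) := Icc_mem_nhdsGE (lt_of_lt_of_le ht.2 hb)
      exact Filter.mem_of_superset this (Icc_subset_Icc_left htT.1)
    exact h.mono_of_mem_nhdsWithin hmem
  have hcont : ContinuousOn q (Icc 0 T) := fun t ht => (hq t ht).continuousWithinAt
  -- first step: up to time `t₁ + 4c`
  have step1 : ∀ t ∈ Icc t₁ (min T (t₁ + 4 * c)), (t - t₁) / 4 ≤ q t := by
    have key := image_le_of_deriv_right_lt_deriv_boundary (f := fun t => -q t) (f' := fun t => -dq t)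
      (a := t₁) (b := min T (t₁ + 4 * c)) (B := fun t => -((t - t₁) / 4)) (B' := fun _ => -(1 / 4))
      ((hcont.mono (Icc_subset_Icc h1.1 (min_le_left _ _))).neg)
      (hder _ _ le_rfl (min_le_left _ _)) (by simpa using h0)
      (fun t => by
        have h := (((hasDerivAt_id t).sub_const t₁).div_const 4).neg
        exact h)
      (fun t ht heq => by
        have ht2 : t < t₁ + 4 * c := lt_of_lt_of_le ht.2 (min_le_right _ _)
        have htT : t ∈ Icc 0 T := ⟨h1.1.trans ht.1, ht.2.le.trans (min_le_left _ _)⟩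
        have hqt : q t = (t - t₁) / 4 := by simpa using heq
        have : |q t| ≤ c := by
          rw [hqt, abs_of_nonneg (by linarith [ht.1])]
          linarith
        have := hdq t htT this
        linarith)
    intro t ht
    have := key ht
    linarith
  -- later times
  intro t ht
  by_cases hle : t ≤ t₁ + 4 * c
  · exact (min_le_right _ _).trans (step1 t ⟨ht.1, le_min ht.2 hle⟩)
  · push Not at hle
    set s := t₁ + 4 * c with hs
    have hsT : s ≤ T := hle.le.trans ht.2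
    have hqs : c ≤ q s := by
      have := step1 s ⟨by linarith, le_min hsT le_rfl⟩
      have h4 : (s - t₁) / 4 = c := by rw [hs]; ring
      linarith
    have key := image_le_of_deriv_right_lt_deriv_boundary (f := fun t => -q t) (f' := fun t => -dq t)
      (a := s) (b := T) (B := fun _ => -c) (B' := fun _ => 0)
      ((hcont.mono (Icc_subset_Icc (h1.1.trans (by linarith)) le_rfl)).neg)
      (hder _ _ (by linarith) le_rfl) (by simpa using hqs)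
      (fun t => hasDerivAt_const t (-c))
      (fun r hr heq => by
        have hrT : r ∈ Icc 0 T := ⟨h1.1.trans ((by linarith : t₁ ≤ s).trans hr.1), hr.2.le⟩
        have hqr : q r = c := by simpa using heq
        have : |q r| ≤ c := by rw [hqr, abs_of_pos hc]
        have := hdq r hrT this
        linarith)
    have := key (x := t) ⟨hle.le, ht.2⟩
    exact (min_le_left _ _).trans (by linarith)

/-- backward barrier -/
theorem barrier_bwd {t₁ : ℝ} (h1 : t₁ ∈ Icc 0 T)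
    (hq : ∀ t ∈ Icc 0 T, HasDerivWithinAt q (dq t) (Icc 0 T) t)
    (hc : 0 < c) (hdq : ∀ t ∈ Icc 0 T, |q t| ≤ c → 1 / 2 ≤ dq t) (h0 : q t₁ ≤ 0) :
    ∀ t ∈ Icc 0 t₁, q t ≤ -min c ((t₁ - t) / 4) := by
  have hrev : ∀ t ∈ Icc 0 T, HasDerivWithinAt (fun t => -q (T - t)) (dq (T - t)) (Icc 0 T) t := by
    intro t ht
    have ht' : T - t ∈ Icc 0 T := ⟨by linarith [ht.2], by linarith [ht.1]⟩
    have hmap : MapsTo (fun t => T - t) (Icc 0 T) (Icc 0 T) :=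
      fun r hr => ⟨by linarith [hr.2], by linarith [hr.1]⟩
    have h1 : HasDerivWithinAt (fun t : ℝ => T - t) (-1) (Icc 0 T) t := by
      simpa using (hasDerivWithinAt_id t (Icc 0 T)).const_sub T
    have h2 := ((hq _ ht').scomp t h1 hmap).neg
    exact h2.congr_deriv (by simp)
  have h := barrier_fwd (T := T) (c := c) (q := fun t => -q (T - t)) (dq := fun t => dq (T - t))
    (t₁ := T - t₁) ⟨by linarith [h1.2], by linarith [h1.1]⟩ hrev hc
    (fun t ht habs => hdq (T - t) ⟨by linarith [ht.2], by linarith [ht.1]⟩ (by simpa using habs))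
    (by simpa using h0)
  intro t ht
  have := h (T - t) ⟨by linarith [ht.2], by linarith [ht.1]⟩
  simp only [sub_sub_cancel] at this
  have e : (T - t - (T - t₁)) / 4 = (t₁ - t) / 4 := by ring
  rw [e] at this
  linarith

/-- the turning time -/
theorem exists_turn (hT : 0 ≤ T)
    (hq : ∀ t ∈ Icc 0 T, HasDerivWithinAt q (dq t) (Icc 0 T) t)
    (hc : 0 < c) (hdq : ∀ t ∈ Icc 0 T, |q t| ≤ c → 1 / 2 ≤ dq t) :
    ∃ t₀ ∈ Icc 0 T, (t₀ < T → ∀ t ∈ Icc t₀ T, min c ((t - t₀) / 4) ≤ q t) ∧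
      (0 < t₀ → ∀ t ∈ Icc 0 t₀, q t ≤ -min c ((t₀ - t) / 4)) := by
  have hcont : ContinuousOn q (Icc 0 T) := fun t ht => (hq t ht).continuousWithinAt
  have h00 : (0 : ℝ) ∈ Icc 0 T := ⟨le_rfl, hT⟩
  have hTT : T ∈ Icc 0 T := ⟨hT, le_rfl⟩
  rcases le_or_gt 0 (q 0) with h0 | h0
  · exact ⟨0, h00, fun _ => barrier_fwd h00 hq hc hdq h0, fun h => absurd h (lt_irrefl _)⟩
  · rcases le_or_gt (q T) 0 with h1 | h1
    · exact ⟨T, hTT, fun h => absurd h (lt_irrefl _), fun _ => barrier_bwd hTT hq hc hdq h1⟩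
    · obtain ⟨t₀, ht₀, h⟩ : (0 : ℝ) ∈ q '' Icc 0 T :=
        intermediate_value_Icc hT hcont ⟨h0.le, h1.le⟩
      exact ⟨t₀, ht₀, fun _ => barrier_fwd ht₀ hq hc hdq h.ge,
        fun _ => barrier_bwd ht₀ hq hc hdq h.le⟩

/-- On the right of the turning time: `u` nearly increases. -/
theorem right_abs_le {t₀ : ℝ} (hc : 0 < c)
    (hR : ∀ t ∈ Icc t₀ T, min c ((t - t₀) / 4) ≤ q t)
    (hqu : ∀ t ∈ Icc 0 T, |q t - du t| ≤ η) (h0 : 0 ≤ t₀) :
    ∀ t ∈ Icc t₀ T, |du t| ≤ du t + 2 * η := by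
  intro t ht
  have h1 := abs_le.1 (hqu t ⟨h0.trans ht.1, ht.2⟩)
  have h2 : 0 ≤ min c ((t - t₀) / 4) := le_min hc.le (by linarith [ht.1])
  have h3 := hR t ht
  rw [abs_le]
  constructor <;> linarith [h1.1, h1.2]

theorem left_abs_le {t₀ : ℝ} (hc : 0 < c)
    (hL : ∀ t ∈ Icc 0 t₀, q t ≤ -min c ((t₀ - t) / 4))
    (hqu : ∀ t ∈ Icc 0 T, |q t - du t| ≤ η) (h0 : t₀ ≤ T) :
    ∀ t ∈ Icc 0 t₀, |du t| ≤ -du t + 2 * η := by
  intro t ht
  have h1 := abs_le.1 (hqu t ⟨ht.1, ht.2.trans h0⟩)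
  have h2 : 0 ≤ min c ((t₀ - t) / 4) := le_min hc.le (by linarith [ht.2])
  have h3 := hL t ht
  rw [abs_le]
  constructor <;> linarith [h1.1, h1.2]

/-- Time bound on the right of the turning time. -/
theorem right_time {t₀ s₁ s₂ κ : ℝ} (hc : 0 < c)
    (hu : ∀ t ∈ Icc 0 T, HasDerivWithinAt u (du t) (Icc 0 T) t)
    (hR : ∀ t ∈ Icc t₀ T, min c ((t - t₀) / 4) ≤ q t)
    (hqu : ∀ t ∈ Icc 0 T, |q t - du t| ≤ η) (h0 : 0 ≤ t₀) (h1 : t₀ ≤ s₁) (h12 : s₁ ≤ s₂)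
    (h2 : s₂ ≤ T) (hκ : u s₂ - u s₁ ≤ κ) :
    min c ((s₂ - s₁) / 4) * (s₂ - s₁) / 2 ≤ κ + η * (s₂ - s₁) := by
  rcases h12.eq_or_lt with h | hlt
  · subst h
    simp only [sub_self, zero_div, mul_zero, add_zero]
    simpa using hκ
  set L := s₂ - s₁ with hL
  have hLpos : 0 < L := by rw [hL]; linarith
  set m := min c (L / 4) with hm
  have hmc : m ≤ c := min_le_left _ _
  have hmL : m ≤ L / 4 := min_le_right _ _
  have hm0 : 0 ≤ m := le_min hc.le (by positivity)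
  -- the auxiliary nondecreasing function
  have hmono : MonotoneOn (fun t => u t - m * (t - s₁) ^ 2 / (2 * L) + η * (t - s₁))
      (Icc s₁ s₂) := by
    have hsub : Icc s₁ s₂ ⊆ Icc 0 T := Icc_subset_Icc (h0.trans h1) h2
    have hd : ∀ t ∈ Ioo s₁ s₂, HasDerivAt
        (fun t => u t - m * (t - s₁) ^ 2 / (2 * L) + η * (t - s₁))
        (du t - m * (t - s₁) / L + η) t := by
      intro t ht
      have htT : t ∈ Icc 0 T := hsub ⟨ht.1.le, ht.2.le⟩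
      have hnh : Icc 0 T ∈ nhds t :=
        Icc_mem_nhds (lt_of_le_of_lt (h0.trans h1) ht.1) (lt_of_lt_of_le ht.2 h2)
      have e1 := (hu t htT).hasDerivAt hnh
      have e2 : HasDerivAt (fun t : ℝ => m * (t - s₁) ^ 2 / (2 * L)) (m * (t - s₁) / L) t := by
        have := ((((hasDerivAt_id t).sub_const s₁).pow 2).const_mul m).div_const (2 * L)
        refine this.congr_deriv ?_
        simp only [id, Nat.cast_ofNat, Nat.add_one_sub_one, pow_one, mul_one]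
        field_simp
      have e3 : HasDerivAt (fun t : ℝ => η * (t - s₁)) η t := by
        have := ((hasDerivAt_id t).sub_const s₁).const_mul η
        simpa using this
      exact (e1.sub e2).add e3
    have hcont : ContinuousOn (fun t => u t - m * (t - s₁) ^ 2 / (2 * L) + η * (t - s₁))
        (Icc s₁ s₂) := by
      have : ContinuousOn u (Icc s₁ s₂) :=
        fun t ht => ((hu t (hsub ht)).continuousWithinAt).mono hsub
      fun_prop
    refine monotoneOn_of_deriv_nonneg (convex_Icc _ _) hcont ?_ ?_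
    · intro t ht
      rw [interior_Icc] at ht
      exact (hd t ht).differentiableAt.differentiableWithinAt
    · intro t ht
      rw [interior_Icc] at ht
      rw [(hd t ht).deriv]
      have htT : t ∈ Icc 0 T := hsub ⟨ht.1.le, ht.2.le⟩
      have hq1 := (abs_le.1 (hqu t htT)).2
      have hq2 := hR t ⟨h1.trans ht.1.le, htT.2⟩
      have hr0 : 0 ≤ (t - s₁) / L := div_nonneg (by linarith [ht.1]) hLpos.le
      have hr1 : (t - s₁) / L ≤ 1 := (div_le_one hLpos).2 (by rw [hL]; linarith [ht.2])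
      have hle : m * (t - s₁) / L ≤ min c ((t - t₀) / 4) := by
        rw [mul_div_assoc]
        refine le_min ?_ ?_
        · calc m * ((t - s₁) / L) ≤ m * 1 := by gcongr
            _ ≤ c := by linarith
        · calc m * ((t - s₁) / L) ≤ L / 4 * ((t - s₁) / L) := by gcongr
            _ = (t - s₁) / 4 := by field_simp
            _ ≤ (t - t₀) / 4 := by linarith
      linarith
  have h := hmono (left_mem_Icc.2 h12) (right_mem_Icc.2 h12) h12
  simp only [sub_self] at h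
  have e : m * (s₂ - s₁) ^ 2 / (2 * L) = m * L / 2 := by
    rw [← hL]
    field_simp
  rw [e, ← hL] at h
  have : m * (0 : ℝ) ^ 2 / (2 * L) = 0 := by simp
  rw [this] at h
  linarith

/-- Time bound on the left of the turning time. -/
theorem left_time {t₀ s₁ s₂ κ : ℝ} (hc : 0 < c)
    (hu : ∀ t ∈ Icc 0 T, HasDerivWithinAt u (du t) (Icc 0 T) t)
    (hL : ∀ t ∈ Icc 0 t₀, q t ≤ -min c ((t₀ - t) / 4))
    (hqu : ∀ t ∈ Icc 0 T, |q t - du t| ≤ η) (h0 : t₀ ≤ T) (h1 : 0 ≤ s₁) (h12 : s₁ ≤ s₂)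
    (h2 : s₂ ≤ t₀) (hκ : u s₁ - u s₂ ≤ κ) :
    min c ((s₂ - s₁) / 4) * (s₂ - s₁) / 2 ≤ κ + η * (s₂ - s₁) := by
  have hrev : ∀ t ∈ Icc 0 T, HasDerivWithinAt (fun t => u (T - t)) (-du (T - t)) (Icc 0 T) t := by
    intro t ht
    have ht' : T - t ∈ Icc 0 T := ⟨by linarith [ht.2], by linarith [ht.1]⟩
    have hmap : MapsTo (fun t => T - t) (Icc 0 T) (Icc 0 T) :=
      fun r hr => ⟨by linarith [hr.2], by linarith [hr.1]⟩
    have h1 : HasDerivWithinAt (fun t : ℝ => T - t) (-1) (Icc 0 T) t := by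
      simpa using (hasDerivWithinAt_id t (Icc 0 T)).const_sub T
    have h2 := (hu _ ht').scomp t h1 hmap
    exact h2.congr_deriv (by simp)
  have h := right_time (T := T) (c := c) (η := η) (u := fun t => u (T - t))
    (du := fun t => -du (T - t)) (q := fun t => -q (T - t)) (t₀ := T - t₀) (s₁ := T - s₂)
    (s₂ := T - s₁) (κ := κ) hc hrev
    (fun t ht => by
      have := hL (T - t) ⟨by linarith [ht.2], by linarith [ht.1]⟩
      have e : (t₀ - (T - t)) / 4 = (t - (T - t₀)) / 4 := by ring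
      rw [e] at this
      linarith)
    (fun t ht => by
      have := hqu (T - t) ⟨by linarith [ht.2], by linarith [ht.1]⟩
      have e : -q (T - t) - -du (T - t) = -(q (T - t) - du (T - t)) := by ring
      rw [e, abs_neg]
      exact this)
    (by linarith) (by linarith) (by linarith) (by linarith)
    (by simpa using hκ)
  have e : T - s₁ - (T - s₂) = s₂ - s₁ := by ring
  rw [e] at h
  exact h

/-- From the time inequality to a bound of order `√δ`. -/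
theorem len_le {L κ Λ T₁ : ℝ} (hη : 0 ≤ η) (hLT : L ≤ T₁)
    (h : min c (L / 4) * L / 2 ≤ κ + η * L) (hΛ0 : 0 ≤ Λ)
    (h1 : 8 * (κ + η * T₁) ≤ Λ ^ 2) (h2 : 2 * (κ + η * T₁) ≤ c * Λ) (hc : 0 < c) : L ≤ Λ := by
  by_contra hlt
  push Not at hlt
  have hLpos : 0 < L := lt_of_le_of_lt hΛ0 hlt
  have hηL : η * L ≤ η * T₁ := by gcongr
  rcases min_cases c (L / 4) with ⟨hm, -⟩ | ⟨hm, -⟩
  · rw [hm] at h
    have : c * Λ < c * L := by gcongr
    linarith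
  · rw [hm] at h
    have : Λ ^ 2 < L ^ 2 := by gcongr
    nlinarith

/-- **Shell lemma.** There is a turning time `t₀` such that `u` nearly decreases before and nearly
increases after it, and an interval on one side of `t₀` over which `u` changes by at most `κ` has
length at most `Λ`. -/
theorem shell {κ Λ T₁ : ℝ} (hT : 0 ≤ T) (hT₁ : T ≤ T₁) (hη : 0 ≤ η) (hc : 0 < c) (hΛ0 : 0 ≤ Λ)
    (hΛ1 : 8 * (κ + η * T₁) ≤ Λ ^ 2) (hΛ2 : 2 * (κ + η * T₁) ≤ c * Λ)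
    (hu : ∀ t ∈ Icc 0 T, HasDerivWithinAt u (du t) (Icc 0 T) t)
    (hq : ∀ t ∈ Icc 0 T, HasDerivWithinAt q (dq t) (Icc 0 T) t)
    (hqu : ∀ t ∈ Icc 0 T, |q t - du t| ≤ η)
    (hdq : ∀ t ∈ Icc 0 T, |q t| ≤ c → 1 / 2 ≤ dq t) :
    ∃ t₀ ∈ Icc 0 T,
      (t₀ < T → ∀ t ∈ Icc t₀ T, |du t| ≤ du t + 2 * η) ∧
      (0 < t₀ → ∀ t ∈ Icc 0 t₀, |du t| ≤ -du t + 2 * η) ∧
      (∀ s₁ s₂, t₀ ≤ s₁ → s₁ ≤ s₂ → s₂ ≤ T → u s₂ - u s₁ ≤ κ → s₂ - s₁ ≤ Λ) ∧
      (∀ s₁ s₂, 0 ≤ s₁ → s₁ ≤ s₂ → s₂ ≤ t₀ → u s₁ - u s₂ ≤ κ → s₂ - s₁ ≤ Λ) := by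
  obtain ⟨t₀, ht₀, hR, hL⟩ := exists_turn hT hq hc hdq
  refine ⟨t₀, ht₀, fun h => right_abs_le hc (hR h) hqu ht₀.1,
    fun h => left_abs_le hc (hL h) hqu ht₀.2, ?_, ?_⟩
  · intro s₁ s₂ h1 h12 h2 hκ
    rcases (ht₀.2).eq_or_lt with h | h
    · have : s₂ - s₁ ≤ 0 := by linarith
      exact this.trans hΛ0
    · exact len_le hη (by linarith [ht₀.1]) (right_time hc hu (hR h) hqu ht₀.1 h1 h12 h2 hκ)
        hΛ0 hΛ1 hΛ2 hc
  · intro s₁ s₂ h1 h12 h2 hκ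
    rcases (ht₀.1).eq_or_lt with h | h
    · have : s₂ - s₁ ≤ 0 := by linarith
      exact this.trans hΛ0
    · exact len_le hη (by linarith [ht₀.2]) (left_time hc hu (hL h) hqu ht₀.2 h1 h12 h2 hκ)
        hΛ0 hΛ1 hΛ2 hc

/-- The two end intervals of a segment which starts and ends below the level `lev + κ`. -/
theorem ends {κ Λ lev t₀ : ℝ} (hΛ0 : 0 ≤ Λ) (ht₀ : t₀ ∈ Icc 0 T)
    (hu : ContinuousOn u (Icc 0 T))
    (hR : ∀ s₁ s₂, t₀ ≤ s₁ → s₁ ≤ s₂ → s₂ ≤ T → u s₂ - u s₁ ≤ κ → s₂ - s₁ ≤ Λ)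
    (hL : ∀ s₁ s₂, 0 ≤ s₁ → s₁ ≤ s₂ → s₂ ≤ t₀ → u s₁ - u s₂ ≤ κ → s₂ - s₁ ≤ Λ)
    (h0 : u 0 ≤ lev + κ) (h1 : u T ≤ lev + κ) :
    ∃ a b, 0 ≤ a ∧ a ≤ t₀ ∧ t₀ ≤ b ∧ b ≤ T ∧ a ≤ Λ ∧ T - b ≤ Λ ∧
      ∀ t ∈ Icc 0 T, lev ≤ u t → t ≤ a ∨ b ≤ t := by
  obtain ⟨b, hb1, hb2, hb3, hb4⟩ : ∃ b, t₀ ≤ b ∧ b ≤ T ∧ T - b ≤ Λ ∧
      ∀ t ∈ Icc t₀ T, lev ≤ u t → b ≤ t := by
    by_cases hne : {t ∈ Icc t₀ T | lev ≤ u t}.Nonempty
    · have hcl : IsClosed {t ∈ Icc t₀ T | lev ≤ u t} :=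
        (hu.mono (Icc_subset_Icc_left ht₀.1)).preimage_isClosed_of_isClosed isClosed_Icc isClosed_Ici
      have hbd : BddBelow {t ∈ Icc t₀ T | lev ≤ u t} := ⟨t₀, fun t ht => ht.1.1⟩
      have hmem := hcl.csInf_mem hne hbd
      refine ⟨_, hmem.1.1, hmem.1.2, ?_, fun t ht hl => csInf_le hbd ⟨ht, hl⟩⟩
      have h2 := hmem.2
      exact hR _ _ hmem.1.1 hmem.1.2 le_rfl (by linarith)
    · refine ⟨T, ht₀.2, le_rfl, by simpa using hΛ0, ?_⟩
      intro t ht hl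
      exact absurd ⟨t, ht, hl⟩ hne
  obtain ⟨a, ha1, ha2, ha3, ha4⟩ : ∃ a, 0 ≤ a ∧ a ≤ t₀ ∧ a ≤ Λ ∧
      ∀ t ∈ Icc 0 t₀, lev ≤ u t → t ≤ a := by
    by_cases hne : {t ∈ Icc 0 t₀ | lev ≤ u t}.Nonempty
    · have hcl : IsClosed {t ∈ Icc 0 t₀ | lev ≤ u t} :=
        (hu.mono (Icc_subset_Icc_right ht₀.2)).preimage_isClosed_of_isClosed isClosed_Icc isClosed_Ici
      have hbd : BddAbove {t ∈ Icc 0 t₀ | lev ≤ u t} := ⟨t₀, fun t ht => ht.1.2⟩
      have hmem := hcl.csSup_mem hne hbd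
      refine ⟨_, hmem.1.1, hmem.1.2, ?_, fun t ht hl => le_csSup hbd ⟨ht, hl⟩⟩
      have h2 := hmem.2
      have := hL 0 _ le_rfl hmem.1.1 hmem.1.2 (by linarith)
      linarith
    · refine ⟨0, le_rfl, ht₀.1, hΛ0, ?_⟩
      intro t ht hl
      exact absurd ⟨t, ht, hl⟩ hne
  refine ⟨a, b, ha1, ha2, hb1, hb2, ha3, hb3, ?_⟩
  intro t ht hl
  rcases le_total t t₀ with h | h
  · exact Or.inl (ha4 t ⟨ht.1, h⟩ hl)
  · exact Or.inr (hb4 t ⟨h, ht.2⟩ hl)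

section Variation

variable {E : Type*} [NormedAddCommGroup E] [NormedSpace ℝ E] {P F : ℝ → E}

/-- Norm bound by a primitive. -/
theorem norm_sub_le {s₁ s₂ : ℝ} {G G' : ℝ → ℝ} (h0 : 0 ≤ s₁) (h2 : s₂ ≤ T)
    (hP : ∀ t ∈ Icc 0 T, HasDerivWithinAt P (F t) (Icc 0 T) t)
    (hG : ∀ t ∈ Icc 0 T, HasDerivWithinAt G (G' t) (Icc 0 T) t)
    (hFG : ∀ t ∈ Icc s₁ s₂, ‖F t‖ ≤ G' t) :
    ∀ t ∈ Icc s₁ s₂, ‖P t - P s₁‖ ≤ G t - G s₁ := by
  have hsub : Icc s₁ s₂ ⊆ Icc 0 T := Icc_subset_Icc h0 h2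
  have hmem : ∀ t ∈ Ico s₁ s₂, Icc 0 T ∈ nhdsWithin t (Ici t) := by
    intro t ht
    have : Icc t T ∈ nhdsWithin t (Ici t) := Icc_mem_nhdsGE (lt_of_lt_of_le ht.2 h2)
    exact Filter.mem_of_superset this (Icc_subset_Icc_left (h0.trans ht.1))
  have key := image_norm_le_of_norm_deriv_right_le_deriv_boundary' (f := fun t => P t - P s₁)
    (f' := F) (a := s₁) (b := s₂) (B := fun t => G t - G s₁) (B' := G')
    ((ContinuousOn.mono (fun t ht => (hP t ht).continuousWithinAt) hsub).sub continuousOn_const)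
    (fun t ht => (((hP t (hsub ⟨ht.1, ht.2.le⟩)).sub_const (P s₁)).mono_of_mem_nhdsWithin
      (hmem t ht)))
    (by simp)
    ((ContinuousOn.mono (fun t ht => (hG t ht).continuousWithinAt) hsub).sub continuousOn_const)
    (fun t ht => (((hG t (hsub ⟨ht.1, ht.2.le⟩)).sub_const (G s₁)).mono_of_mem_nhdsWithin
      (hmem t ht)))
    (fun t ht => hFG t ⟨ht.1, ht.2.le⟩)
  intro t ht
  exact key ht

/-- `P` does not change where `F = 0`. -/
theorem eq_of_zero {s₁ s₂ : ℝ} (h0 : 0 ≤ s₁) (h2 : s₂ ≤ T)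
    (hP : ∀ t ∈ Icc 0 T, HasDerivWithinAt P (F t) (Icc 0 T) t)
    (hF : ∀ t ∈ Ioo s₁ s₂, F t = 0) (h12 : s₁ ≤ s₂) : P s₂ = P s₁ := by
  rcases h12.eq_or_lt with h | hlt
  · rw [h]
  have hsub : Icc s₁ s₂ ⊆ Icc 0 T := Icc_subset_Icc h0 h2
  have hc : ContinuousOn P (Icc s₁ s₂) :=
    ContinuousOn.mono (fun t ht => (hP t ht).continuousWithinAt) hsub
  -- constant on the open interval
  have hopen : ∀ x ∈ Ioo s₁ s₂, ∀ y ∈ Ioo s₁ s₂, P x = P y := by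
    intro x hx y hy
    have hd : DifferentiableOn ℝ P (Ioo s₁ s₂) := fun t ht =>
      ((hP t (hsub ⟨ht.1.le, ht.2.le⟩)).hasDerivAt (Icc_mem_nhds (lt_of_le_of_lt h0 ht.1)
        (lt_of_lt_of_le ht.2 h2))).differentiableAt.differentiableWithinAt
    refine isOpen_Ioo.is_const_of_deriv_eq_zero isPreconnected_Ioo hd ?_ hx hy
    intro t ht
    rw [((hP t (hsub ⟨ht.1.le, ht.2.le⟩)).hasDerivAt (Icc_mem_nhds (lt_of_le_of_lt h0 ht.1)
      (lt_of_lt_of_le ht.2 h2))).deriv, hF t ht]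
    rfl
  set m := (s₁ + s₂) / 2 with hm
  have hmI : m ∈ Ioo s₁ s₂ := ⟨by rw [hm]; linarith, by rw [hm]; linarith⟩
  have hcl : closure (Ioo s₁ s₂) = Icc s₁ s₂ := closure_Ioo hlt.ne
  have hall : EqOn P (fun _ => P m) (Icc s₁ s₂) := by
    have h1 : EqOn P (fun _ => P m) (Ioo s₁ s₂) := fun x hx => hopen x hx m hmI
    rw [← hcl]
    exact h1.of_subset_closure (by rw [hcl]; exact hc) continuousOn_const
      subset_closure le_rfl
  rw [hall ⟨h12, le_rfl⟩, hall ⟨le_rfl, h12⟩]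

theorem right_variation {κ Λ lev t₀ A ζ : ℝ} (hA : 0 ≤ A) (hζ : 0 ≤ ζ) (hη : 0 ≤ η) (hκ : 0 ≤ κ)
    (hΛ0 : 0 ≤ Λ) (ht₀ : t₀ ∈ Icc 0 T)
    (hu : ∀ t ∈ Icc 0 T, HasDerivWithinAt u (du t) (Icc 0 T) t)
    (hdu : t₀ < T → ∀ t ∈ Icc t₀ T, |du t| ≤ du t + 2 * η)
    (hR : ∀ s₁ s₂, t₀ ≤ s₁ → s₁ ≤ s₂ → s₂ ≤ T → u s₂ - u s₁ ≤ κ → s₂ - s₁ ≤ Λ)
    (hP : ∀ t ∈ Icc 0 T, HasDerivWithinAt P (F t) (Icc 0 T) t)
    (hF1 : ∀ t ∈ Icc 0 T, lev ≤ u t → u t ≤ lev + κ → ‖F t‖ ≤ A * (ζ + |du t|))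
    (hF0 : ∀ t ∈ Icc 0 T, u t < lev ∨ lev + κ < u t → F t = 0) :
    ∀ s t, t₀ ≤ s → s ≤ t → t ≤ T → ‖P t - P s‖ ≤ A * ((ζ + 2 * η) * Λ + κ) := by
  intro s t h0s hst htT
  have hbound : 0 ≤ A * ((ζ + 2 * η) * Λ + κ) := by positivity
  have hucont : ContinuousOn u (Icc 0 T) := fun t ht => (hu t ht).continuousWithinAt
  -- the shell times in `[s, t]`
  set S : Set ℝ := {r ∈ Icc s t | u r ∈ Icc lev (lev + κ)} with hS
  have h0s' : 0 ≤ s := ht₀.1.trans h0s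
  by_cases hne : S.Nonempty
  · have hcl : IsClosed S :=
      (hucont.mono (Icc_subset_Icc h0s' htT)).preimage_isClosed_of_isClosed isClosed_Icc isClosed_Icc
    have hbb : BddBelow S := ⟨s, fun r hr => hr.1.1⟩
    have hba : BddAbove S := ⟨t, fun r hr => hr.1.2⟩
    have hb := hcl.csInf_mem hne hbb
    have hb' := hcl.csSup_mem hne hba
    set b := sInf S with hbdef
    set b' := sSup S with hbdef'
    have hbb' : b ≤ b' := csInf_le hbb hb'
    have e1 : P b = P s := by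
      refine eq_of_zero h0s' (hb.1.2.trans htT) hP ?_ hb.1.1
      intro r hr
      refine hF0 r ⟨h0s'.trans hr.1.le, hr.2.le.trans (hb.1.2.trans htT)⟩ ?_
      by_contra hcon
      push Not at hcon
      exact absurd (csInf_le hbb (show r ∈ S from ⟨⟨hr.1.le, hr.2.le.trans hb.1.2⟩, hcon⟩))
        (not_le.2 hr.2)
    have e2 : P t = P b' := by
      refine eq_of_zero (h0s'.trans hb'.1.1) htT hP ?_ hb'.1.2
      intro r hr
      refine hF0 r ⟨h0s'.trans (hb'.1.1.trans hr.1.le), hr.2.le.trans htT⟩ ?_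
      by_contra hcon
      push Not at hcon
      exact absurd (le_csSup hba (show r ∈ S from ⟨⟨hb'.1.1.trans hr.1.le, hr.2.le⟩, hcon⟩))
        (not_le.2 hr.1)
    rw [e2, ← e1]
    rcases hbb'.eq_or_lt with heq | hlt
    · rw [heq, sub_self, norm_zero]
      exact hbound
    have ht₀T : t₀ < T := lt_of_le_of_lt (h0s.trans hb.1.1) (lt_of_lt_of_le hlt (hb'.1.2.trans htT))
    have hlen : b' - b ≤ Λ := hR b b' (h0s.trans hb.1.1) hbb' (hb'.1.2.trans htT)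
      (by linarith [hb'.2.2, hb.2.1])
    have hdub : ∀ r ∈ Icc b b', 0 ≤ du r + 2 * η := fun r hr =>
      (abs_nonneg _).trans (hdu ht₀T r ⟨h0s.trans (hb.1.1.trans hr.1), hr.2.trans (hb'.1.2.trans htT)⟩)
    have key := norm_sub_le (T := T) (P := P) (F := F) (s₁ := b) (s₂ := b')
      (G := fun r => A * ((ζ + 2 * η) * r + u r)) (G' := fun r => A * ((ζ + 2 * η) + du r))
      (h0s'.trans hb.1.1) (hb'.1.2.trans htT) hP
      (fun r hr => by
        have h1 : HasDerivWithinAt (fun r : ℝ => (ζ + 2 * η) * r) (ζ + 2 * η) (Icc 0 T) r := by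
          simpa using (hasDerivWithinAt_id r (Icc 0 T)).const_mul (ζ + 2 * η)
        exact (h1.add (hu r hr)).const_mul A)
      (fun r hr => by
        have hrT : r ∈ Icc 0 T := ⟨h0s'.trans (hb.1.1.trans hr.1), hr.2.trans (hb'.1.2.trans htT)⟩
        by_cases hin : u r ∈ Icc lev (lev + κ)
        · have h1 := hF1 r hrT hin.1 hin.2
          have h2 := hdu ht₀T r ⟨h0s.trans (hb.1.1.trans hr.1), hr.2.trans (hb'.1.2.trans htT)⟩
          exact h1.trans (mul_le_mul_of_nonneg_left (by linarith) hA)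
        · have h1 : F r = 0 := hF0 r hrT (by
            by_contra hcon
            push Not at hcon
            exact hin hcon)
          rw [h1, norm_zero]
          have := hdub r hr
          have h3 : 0 ≤ ζ + 2 * η + du r := by linarith
          exact mul_nonneg hA h3)
      b' ⟨hbb', le_rfl⟩
    refine key.trans ?_
    have : A * ((ζ + 2 * η) * b' + u b') - A * ((ζ + 2 * η) * b + u b) =
        A * ((ζ + 2 * η) * (b' - b) + (u b' - u b)) := by ring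
    rw [this]
    have h5 : u b' - u b ≤ κ := by linarith [hb'.2.2, hb.2.1]
    gcongr
  · have e : P t = P s := by
      refine eq_of_zero h0s' htT hP ?_ hst
      intro r hr
      refine hF0 r ⟨h0s'.trans hr.1.le, hr.2.le.trans htT⟩ ?_
      by_contra hcon
      push Not at hcon
      exact hne ⟨r, ⟨hr.1.le, hr.2.le⟩, hcon⟩
    rw [e, sub_self, norm_zero]
    exact hbound

theorem left_variation {κ Λ lev t₀ A ζ : ℝ} (hA : 0 ≤ A) (hζ : 0 ≤ ζ) (hη : 0 ≤ η) (hκ : 0 ≤ κ)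
    (hΛ0 : 0 ≤ Λ) (ht₀ : t₀ ∈ Icc 0 T)
    (hu : ∀ t ∈ Icc 0 T, HasDerivWithinAt u (du t) (Icc 0 T) t)
    (hdu : 0 < t₀ → ∀ t ∈ Icc 0 t₀, |du t| ≤ -du t + 2 * η)
    (hL : ∀ s₁ s₂, 0 ≤ s₁ → s₁ ≤ s₂ → s₂ ≤ t₀ → u s₁ - u s₂ ≤ κ → s₂ - s₁ ≤ Λ)
    (hP : ∀ t ∈ Icc 0 T, HasDerivWithinAt P (F t) (Icc 0 T) t)
    (hF1 : ∀ t ∈ Icc 0 T, lev ≤ u t → u t ≤ lev + κ → ‖F t‖ ≤ A * (ζ + |du t|))
    (hF0 : ∀ t ∈ Icc 0 T, u t < lev ∨ lev + κ < u t → F t = 0) :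
    ∀ s t, 0 ≤ s → s ≤ t → t ≤ t₀ → ‖P t - P s‖ ≤ A * ((ζ + 2 * η) * Λ + κ) := by
  have hmap : MapsTo (fun t => T - t) (Icc 0 T) (Icc 0 T) :=
    fun r hr => ⟨by linarith [hr.2], by linarith [hr.1]⟩
  have hneg : ∀ t, HasDerivWithinAt (fun t : ℝ => T - t) (-1) (Icc 0 T) t := by
    intro t
    simpa using (hasDerivWithinAt_id t (Icc 0 T)).const_sub T
  have hurev : ∀ t ∈ Icc 0 T, HasDerivWithinAt (fun t => u (T - t)) (-du (T - t)) (Icc 0 T) t := by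
    intro t ht
    exact ((hu _ (hmap ht)).scomp t (hneg t) hmap).congr_deriv (by simp)
  have hPrev : ∀ t ∈ Icc 0 T, HasDerivWithinAt (fun t => P (T - t)) (-F (T - t)) (Icc 0 T) t := by
    intro t ht
    exact ((hP _ (hmap ht)).scomp t (hneg t) hmap).congr_deriv (by simp)
  have key := right_variation (T := T) (η := η) (u := fun t => u (T - t)) (du := fun t => -du (T - t))
    (P := fun t => P (T - t)) (F := fun t => -F (T - t)) (κ := κ) (Λ := Λ) (lev := lev)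
    (t₀ := T - t₀) (A := A) (ζ := ζ) hA hζ hη hκ hΛ0 ⟨by linarith [ht₀.2], by linarith [ht₀.1]⟩
    hurev
    (fun h t ht => by
      have := hdu (by linarith) (T - t) ⟨by linarith [ht.2], by linarith [ht.1]⟩
      rw [abs_neg]
      exact this)
    (fun s₁ s₂ h1 h12 h2 hκ' => by
      have := hL (T - s₂) (T - s₁) (by linarith) (by linarith) (by linarith) hκ'
      linarith)
    hPrev
    (fun t ht h1 h2 => by
      rw [norm_neg, abs_neg]
      exact hF1 _ (hmap ht) h1 h2)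
    (fun t ht h => by rw [hF0 _ (hmap ht) h, neg_zero])
  intro s t h0s hst htt
  have := key (T - t) (T - s) (by linarith) (by linarith) (by linarith)
  simp only [sub_sub_cancel] at this
  rw [norm_sub_rev]
  exact this

/-- **Variation bound.**  If `‖P'‖ ≤ A (ζ + |u'|)` at the shell times and `P' = 0` otherwise, then
`P` changes by at most `2 A ((ζ + 2η) Λ + κ)`. -/
theorem variation {κ Λ lev t₀ A ζ : ℝ} (hA : 0 ≤ A) (hζ : 0 ≤ ζ) (hη : 0 ≤ η) (hκ : 0 ≤ κ)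
    (hΛ0 : 0 ≤ Λ) (ht₀ : t₀ ∈ Icc 0 T)
    (hu : ∀ t ∈ Icc 0 T, HasDerivWithinAt u (du t) (Icc 0 T) t)
    (hduR : t₀ < T → ∀ t ∈ Icc t₀ T, |du t| ≤ du t + 2 * η)
    (hduL : 0 < t₀ → ∀ t ∈ Icc 0 t₀, |du t| ≤ -du t + 2 * η)
    (hR : ∀ s₁ s₂, t₀ ≤ s₁ → s₁ ≤ s₂ → s₂ ≤ T → u s₂ - u s₁ ≤ κ → s₂ - s₁ ≤ Λ)
    (hL : ∀ s₁ s₂, 0 ≤ s₁ → s₁ ≤ s₂ → s₂ ≤ t₀ → u s₁ - u s₂ ≤ κ → s₂ - s₁ ≤ Λ)
    (hP : ∀ t ∈ Icc 0 T, HasDerivWithinAt P (F t) (Icc 0 T) t)
    (hF1 : ∀ t ∈ Icc 0 T, lev ≤ u t → u t ≤ lev + κ → ‖F t‖ ≤ A * (ζ + |du t|))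
    (hF0 : ∀ t ∈ Icc 0 T, u t < lev ∨ lev + κ < u t → F t = 0) :
    ∀ s ∈ Icc 0 T, ∀ t ∈ Icc 0 T, ‖P t - P s‖ ≤ 2 * A * ((ζ + 2 * η) * Λ + κ) := by
  have hR' := right_variation hA hζ hη hκ hΛ0 ht₀ hu hduR hR hP hF1 hF0
  have hL' := left_variation hA hζ hη hκ hΛ0 ht₀ hu hduL hL hP hF1 hF0
  have hb : 0 ≤ A * ((ζ + 2 * η) * Λ + κ) := by positivity
  have main : ∀ s t, 0 ≤ s → s ≤ t → t ≤ T → ‖P t - P s‖ ≤ 2 * A * ((ζ + 2 * η) * Λ + κ) := by
    intro s t h0 hst h1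
    rcases le_total t t₀ with h | h
    · exact (hL' s t h0 hst h).trans (by linarith)
    · rcases le_total t₀ s with h' | h'
      · exact (hR' s t h' hst h1).trans (by linarith)
      · have e : P t - P s = (P t - P t₀) + (P t₀ - P s) := by abel
        rw [e]
        refine (norm_add_le _ _).trans ?_
        have := hR' t₀ t le_rfl h h1
        have := hL' s t₀ h0 h' le_rfl
        linarith
  intro s hs t ht
  rcases le_total s t with h | h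
  · exact main s t hs.1 h ht.2
  · rw [norm_sub_rev]
    exact main t s ht.1 h hs.2

end Variation

end Pool.Agent.MPa29272.S2D
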